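import Mathlib

/-! A simplicial complex whose q-deformation has a characteristic polynomial not polynomial in q. -/

namespace Pool.Agent.Results.MP_6fdec2_co.NotPolynomial

open Finset Polynomial

/-- The generalized `q`-deformation of the complex with face set `Δ` over the field `F`. -/
def arr (F : Type) [Field F] {l : ℕ} (Δ : Set (Finset (Fin l))) : Set (Submodule F (Fin l → F)) :=
  {H | ∃ T ∈ Δ, T.Nonempty ∧ ∃ a : Fin l → F, (∀ i, a i ≠ 0 ↔ i ∈ T) ∧
    ∀ x, x ∈ H ↔ ∑ i, a i * x i = 0}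

/-- The characteristic polynomial of a central arrangement over a finite field. -/
noncomputable def chi {F : Type} [Field F] [Finite F] {l : ℕ}
    (A : Set (Submodule F (Fin l → F))) : ℝ[X] :=
  ∑ I ∈ (Set.toFinite A).toFinset.powerset,
    (-1) ^ I.card * X ^ Module.finrank F (I.inf id : Submodule F (Fin l → F))

def dep {F : Type} [Field F] (T : Finset (Fin 7)) (x : Fin 3 → Fin 7 → F) : Prop :=
  ∃ a : Fin 7 → F, (∀ i, a i ≠ 0 ↔ i ∈ T) ∧ ∀ k, ∑ i, a i * x k i = 0

def good {F : Type} [Field F] (Δ : Set (Finset (Fin 7))) (x : Fin 3 → Fin 7 → F) : Prop :=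
  ∀ T ∈ Δ, T.Nonempty → ¬ dep T x

lemma chi_eval (F : Type) [Field F] [Finite F] (Δ : Set (Finset (Fin 7))) :
    (chi (arr F Δ)).eval ((Nat.card F : ℝ) ^ 3) = {x : Fin 3 → Fin 7 → F | good Δ x}.ncard := by
  classical
  have := Fintype.ofFinite F
  have h := inclusion_exclusion_card_inf_compl (Set.toFinite (arr F Δ)).toFinset
    fun H => (univ.filter fun x : Fin 3 → Fin 7 → F => ∀ k, x k ∈ H)
  have e : {x : Fin 3 → Fin 7 → F | good Δ x} = ↑((Set.toFinite (arr F Δ)).toFinset.inf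
      fun H => (univ.filter fun x : Fin 3 → Fin 7 → F => ∀ k, x k ∈ H)ᶜ) := by
    ext x
    simp only [Set.mem_setOf_eq, mem_coe, Finset.mem_inf, Set.Finite.mem_toFinset, mem_compl,
      mem_filter, mem_univ, true_and]
    constructor
    · rintro h H ⟨T, hT, hn, a, ha, hH⟩ hx
      exact h T hT hn ⟨a, ha, fun k => (hH _).1 (hx k)⟩
    · rintro h T hT hn ⟨a, ha, hx⟩
      have k : ∀ y, y ∈ LinearMap.ker (Fintype.linearCombination F a) ↔ ∑ i, a i * y i = 0 := by
        simp [Fintype.linearCombination_apply, mul_comm]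
      exact h _ ⟨T, hT, hn, a, ha, k⟩ fun j => (k _).2 (hx j)
  rw [e, Set.ncard_coe_finset, ← Int.cast_natCast (Finset.card _), h, chi, eval_finset_sum]
  push_cast
  refine sum_congr rfl fun I _ => ?_
  have : (I.inf fun H => (univ.filter fun x : Fin 3 → Fin 7 → F => ∀ k, x k ∈ H)) =
      Fintype.piFinset fun _ => univ.filter (· ∈ (I.inf id : Submodule F (Fin 7 → F))) := by
    ext x
    simp only [Finset.mem_inf, mem_filter, mem_univ, true_and, Fintype.mem_piFinset,
      Submodule.mem_finsetInf, id]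
    exact ⟨fun h k H hH => h H hH k, fun h H hH k => h k H hH⟩
  rw [this, Fintype.card_piFinset, prod_const, ← Fintype.card_subtype,
    Module.card_eq_pow_finrank (K := F)]
  simp [← pow_mul, mul_comm]

def base : Set (Finset (Fin 7)) := {T | T.card ≤ 2 ∨ T = {0, 1, 2}}

def lines : Finset (Finset (Fin 7)) :=
  {{0, 1, 3}, {0, 2, 4}, {1, 2, 5}, {2, 3, 6}, {1, 4, 6}, {0, 5, 6}, {3, 4, 5}}

def Poly (S D : Finset (Finset (Fin 7))) : Prop := ∃ P : ℝ[X], ∀ (F : Type) [Field F] [Finite F],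
  ({x : Fin 3 → Fin 7 → F | good (base ∪ S) x ∧ ∀ T ∈ D, dep T x}.ncard : ℝ) = P.eval (Nat.card F : ℝ)

lemma step (h : ∀ S ⊆ lines, Poly S ∅) (D : Finset (Finset (Fin 7))) :
    D ⊆ lines → ∀ S ⊆ lines, Poly S D := by
  induction D using Finset.induction with
  | empty => exact fun _ => h
  | insert L D _ ih =>
    intro hD S hS
    rw [insert_subset_iff] at hD
    obtain ⟨P, hP⟩ := ih hD.2 S hS
    obtain ⟨Q, hQ⟩ := ih hD.2 (insert L S) (insert_subset hD.1 hS)
    refine ⟨P - Q, fun F _ _ => ?_⟩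
    have hL : L.Nonempty := (by decide +kernel : ∀ L ∈ lines, L.Nonempty) L hD.1
    rw [eval_sub, ← hP, ← hQ, eq_sub_iff_add_eq, ← Nat.cast_add, ← Set.ncard_union_eq]
    · congr 2
      ext x
      simp only [good, Set.mem_union, Set.mem_setOf_eq, mem_coe, mem_insert]
      grind
    · rw [Set.disjoint_left]
      exact fun x h1 h2 => h2.1 L (by simp) hL (h1.2 L (by simp))

lemma odd (F : Type) [Field F] (h2 : (2 : F) ≠ 0) (x : Fin 3 → Fin 7 → F) (h : good base x) :
    ¬ ∀ T ∈ lines, dep T x := by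
  classical
  have ind : ∀ a b c : F, (∀ k, a * x k 0 + b * x k 1 + c * x k 2 = 0) → a = 0 ∧ b = 0 ∧ c = 0 := by
    intro a b c e
    by_contra hc
    refine h (univ.filter fun i => ![a, b, c, 0, 0, 0, 0] i ≠ 0) ?_ ?_
      ⟨![a, b, c, 0, 0, 0, 0], by simp, fun k => by simpa [Fin.sum_univ_seven] using e k⟩
    · refine (by decide +kernel : ∀ T ⊆ ({0, 1, 2} : Finset (Fin 7)), T.card ≤ 2 ∨ T = {0, 1, 2}) _ ?_
      intro i
      fin_cases i <;> simp
    · by_contra hn
      rw [not_nonempty_iff_eq_empty, filter_eq_empty_iff] at hn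
      exact hc ⟨by simpa using hn (mem_univ 0), by simpa using hn (mem_univ 1),
        by simpa using hn (mem_univ 2)⟩
  have tri : ∀ i j k : Fin 7, i ≠ j → i ≠ k → j ≠ k → dep {i, j, k} x → ∃ a b : F, a ≠ 0 ∧ b ≠ 0 ∧
      ∀ t, x t k = a * x t i + b * x t j := by
    rintro i j k h1 h2 h3 ⟨a, ha, e⟩
    have a1 : a i ≠ 0 := (ha i).2 (by simp)
    have a2 : a j ≠ 0 := (ha j).2 (by simp)
    have a3 : a k ≠ 0 := (ha k).2 (by simp)
    refine ⟨-a i / a k, -a j / a k, by simp [a1, a3], by simp [a2, a3], fun t => ?_⟩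
    have := e t
    rw [← sum_subset (subset_univ {i, j, k}) fun y _ hy => by
      rw [not_not.1 (mt (ha y).1 hy), zero_mul], sum_insert (by simp [h1, h2]), sum_pair h3] at this
    field_simp
    linear_combination this
  intro hl
  have l1 := hl {0, 1, 3} (by decide +kernel)
  have l2 := hl {0, 2, 4} (by decide +kernel)
  have l3 := hl {1, 2, 5} (by decide +kernel)
  have l4 := hl {2, 3, 6} (by decide +kernel)
  have l5 := hl {1, 4, 6} (by decide +kernel)
  have l6 := hl {0, 5, 6} (by decide +kernel)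
  have l7 := hl {3, 4, 5} (by decide +kernel)
  obtain ⟨a0, a1, m0, m1, e3⟩ := tri _ _ _ (by decide) (by decide) (by decide) l1
  obtain ⟨b0, b2, -, m2, e4⟩ := tri _ _ _ (by decide) (by decide) (by decide) l2
  obtain ⟨c1, c2, n1, n2, e5⟩ := tri _ _ _ (by decide) (by decide) (by decide) l3
  obtain ⟨d2, d3, -, n3, e6⟩ := tri _ _ _ (by decide) (by decide) (by decide) l4
  obtain ⟨f1, f4, -, n4, e7⟩ := tri _ _ _ (by decide) (by decide) (by decide) l5
  obtain ⟨g0, g5, -, n5, e8⟩ := tri _ _ _ (by decide) (by decide) (by decide) l6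
  obtain ⟨k3, k4, n6, -, e9⟩ := tri _ _ _ (by decide) (by decide) (by decide) l7
  obtain ⟨p1, p2, p3⟩ := ind (d3 * a0 - f4 * b0) (d3 * a1 - f1) (d2 - f4 * b2) fun t => by
    linear_combination e7 t - e6 t - d3 * e3 t + f4 * e4 t
  obtain ⟨q1, q2, q3⟩ := ind (d3 * a0 - g0) (d3 * a1 - g5 * c1) (d2 - g5 * c2) fun t => by
    linear_combination e8 t - e6 t - d3 * e3 t + g5 * e5 t
  obtain ⟨r1, r2, r3⟩ := ind (k3 * a0 + k4 * b0) (k3 * a1 - c1) (k4 * b2 - c2) fun t => by
    linear_combination e5 t - e9 t - k3 * e3 t - k4 * e4 t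
  have u1 : g5 * k4 = f4 := mul_right_cancel₀ m2 (by linear_combination g5 * r3 - q3 + p3)
  have u2 : d3 = g5 * k3 := mul_right_cancel₀ m1 (by linear_combination q2 - g5 * r2)
  have u3 : 2 * g5 * k3 * a0 = 0 := by linear_combination g5 * r1 + p1 - b0 * u1 - a0 * u2
  exact mul_ne_zero (mul_ne_zero (mul_ne_zero h2 n5) n6) m0 u3

theorem result : ∃ Δ : Set (Finset (Fin 7)), IsLowerSet Δ ∧ (∀ i, {i} ∈ Δ) ∧
    ¬ ∃ P : ℝ[X][X], ∀ (F : Type) [Field F] [Finite F],
      chi (arr F Δ) = P.map (evalRingHom (Nat.card F : ℝ)) := by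
  by_contra hc
  push Not at hc
  obtain ⟨P, hP⟩ := step (fun S hS => by
    obtain ⟨P, hP⟩ := hc (base ∪ S) (fun A B hAB hA => by
      rcases eq_or_lt_of_le hAB with rfl | h
      · exact hA
      have := card_lt_card h
      have : A.card ≤ 3 := by
        rcases hA with (hA | rfl) | hA
        · omega
        · decide
        · exact (by decide +kernel : ∀ L ∈ lines, L.card ≤ 3) A (hS hA)
      exact Or.inl (Or.inl (by omega))) fun i => Or.inl (Or.inl (by simp))
    refine ⟨P.eval (X ^ 3), fun F _ _ => ?_⟩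
    simp only [notMem_empty, false_imp_iff, implies_true, and_true]
    rw [← chi_eval, hP, eval_map, ← coe_evalRingHom, ← eval₂_at_apply]
    simp) lines subset_rfl ∅ (by simp)
  simp only [coe_empty, Set.union_empty] at hP
  have z : P = 0 := by
    refine P.eq_zero_of_infinite_isRoot (Set.Infinite.mono ?_ ((Nat.infinite_setOf_prime.diff
      (Set.finite_singleton 2)).image (Nat.cast_injective (R := ℝ)).injOn))
    rintro _ ⟨p, ⟨hp, h2⟩, rfl⟩
    have : Fact p.Prime := ⟨hp⟩
    have := hP (ZMod p)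
    rw [Nat.card_zmod] at this
    rw [Set.mem_setOf_eq, IsRoot, ← this, Nat.cast_eq_zero, Set.ncard_eq_zero,
      Set.eq_empty_iff_forall_notMem]
    exact fun x h => odd _ (fun h => h2 ((Nat.prime_dvd_prime_iff_eq hp Nat.prime_two).1
        ((ZMod.natCast_eq_zero_iff 2 p).1 (by simpa using h)))) x h.1 h.2
  have := hP (ZMod 2)
  rw [z, eval_zero, Nat.cast_eq_zero, Set.ncard_eq_zero, Set.eq_empty_iff_forall_notMem] at this
  refine this ![![1, 0, 0, 1, 1, 0, 1], ![0, 1, 0, 1, 0, 1, 1], ![0, 0, 1, 0, 1, 1, 1]] ?_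
  simp only [Set.mem_setOf_eq, good, base, dep]
  decide +kernel

end Pool.Agent.Results.MP_6fdec2_co.NotPolynomial
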